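import Pool.Agent.Run7.h44.CM.Main

set_option autoImplicit false

namespace Pool.Agent.Results.MP_f36693_lc.NegativeAnswer

open Run7.h44.CM

/-- There is a set `D` computable from `∅^(ω)` whose Turing degree contains no complete first-order
theory, countably categorical or not, in a computable signature that has a computable model. -/
theorem result : ∃ D : ℕ → Bool, TuringReducible (chi D) (chi zeroOmega) ∧
    ∀ s : Sig, s.IsComputable → ∀ T : s.lang.Theory, T.IsMaximal → HasComputableModel T →
      ¬ TuringEquivalent (chi (theorySet T)) (chi D) :=
  main

end Pool.Agent.Results.MP_f36693_lc.NegativeAnswer
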